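import Pool.Agent.Y734.Stms

/-!
# Job DET of the project Y734/QP
-/

set_option autoImplicit false

namespace Pool.Agent.Y734.DET

open MvPolynomial

/-- the determinant of a symmetric matrix -/
def dt {R : Type*} [CommRing R] (a b c d e f : R) : R :=
  a * d * f + 2 * b * c * e - a * e ^ 2 - d * c ^ 2 - f * b ^ 2

/-- a pencil of singular symmetric matrices -/
theorem key (a b c d e f a' b' c' d' e' f' : ℚ)
    (h : ∀ t : ℚ, dt (a + t * a') (b + t * b') (c + t * c') (d + t * d') (e + t * e')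
      (f + t * f') = 0) :
    (b * e - c * d) ^ 2 * a' + (c * b - a * e) ^ 2 * d' + (a * d - b ^ 2) ^ 2 * f' +
      2 * ((b * e - c * d) * (c * b - a * e)) * b' +
      2 * ((b * e - c * d) * (a * d - b ^ 2)) * c' +
      2 * ((c * b - a * e) * (a * d - b ^ 2)) * e' = 0 := by
  have h0 := h 0
  have h1 := h 1
  have h2 := h (-1)
  have h3 := h 2
  simp only [dt] at h0 h1 h2 h3
  have hp : (a' * d * f + a * d' * f + a * d * f' + 2 * b' * c * e + 2 * b * c' * e
      + 2 * b * c * e' - a' * e ^ 2 - 2 * a * e * e' - d' * c ^ 2 - 2 * d * c * c' - f' * b ^ 2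
      - 2 * f * b * b') = 0 := by
    linear_combination (-1/2 : ℚ) * h0 + h1 - (1/3 : ℚ) * h2 - (1/6 : ℚ) * h3
  have h0' : a * d * f + 2 * b * c * e - a * e ^ 2 - d * c ^ 2 - f * b ^ 2 = 0 := by
    linear_combination h0
  linear_combination (a * d - b ^ 2) * hp - (d * a' + a * d' - 2 * b * b') * h0'

/-- a pencil of matrices of rank one -/
theorem key1 (a b d a' b' d' : ℚ) (ha : a ≠ 0)
    (h : ∀ t : ℚ, (a + t * a') * (d + t * d') - (b + t * b') ^ 2 = 0) :
    b' = (b / a) * a' ∧ d' = (b / a) ^ 2 * a' := by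
  have h0 := h 0
  have h1 := h 1
  have h2 := h (-1)
  have e0 : a * d - b ^ 2 = 0 := by linear_combination h0
  have e1 : a * d' + d * a' - 2 * b * b' = 0 := by linear_combination (1/2 : ℚ) * h1 - (1/2) * h2
  have e2 : a' * d' - b' ^ 2 = 0 := by
    linear_combination (1/2 : ℚ) * h1 + (1/2) * h2 - h0
  have e3 : (a * b' - b * a') ^ 2 = 0 := by
    linear_combination (-a ^ 2) * e2 + a * a' * e1 - a' ^ 2 * e0
  have e4 : a * b' - b * a' = 0 := by
    exact pow_eq_zero_iff (two_ne_zero) |>.mp e3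
  have e5 : b' = (b / a) * a' := by
    field_simp
    linear_combination e4
  refine ⟨e5, ?_⟩
  have : a ^ 2 * d' = b ^ 2 * a' := by
    linear_combination a * e1 - a' * e0 + 2 * b * e4
  field_simp
  linear_combination this

/-- linear forms -/
noncomputable def L (v : Fin 4 → ℚ) : MvPolynomial (Fin 4) ℚ := ∑ k, C (v k) * X k

theorem L_hom (v : Fin 4 → ℚ) : (L v).IsHomogeneous 1 := by
  unfold L
  refine IsHomogeneous.sum _ _ _ fun k _ => ?_
  have := (isHomogeneous_C (Fin 4) (v k)).mul (isHomogeneous_X ℚ k)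
  simpa using this

theorem L_eval (v a : Fin 4 → ℚ) : eval a (L v) = ∑ k, v k * a k := by
  simp [L]

theorem L_aeval {Ω : Type} [Field Ω] [Algebra ℚ Ω] (x : Fin 4 → Ω) (v : Fin 4 → ℚ) :
    aeval x (L v) = ∑ k, algebraMap ℚ Ω (v k) * x k := by
  simp [L]

theorem dt_hom (a b c d e f : Fin 4 → ℚ) :
    (dt (L a) (L b) (L c) (L d) (L e) (L f)).IsHomogeneous 3 := by
  unfold dt
  have h2 : (2 : MvPolynomial (Fin 4) ℚ).IsHomogeneous 0 := isHomogeneous_C (Fin 4) (2 : ℚ)
  refine ((((((L_hom a).mul (L_hom d)).mul (L_hom f)).add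
    (((h2.mul (L_hom b)).mul (L_hom c)).mul (L_hom e))).sub
    ((L_hom a).mul ((L_hom e).pow 2))).sub ((L_hom d).mul ((L_hom c).pow 2))).sub
    ((L_hom f).mul ((L_hom b).pow 2))

theorem sum_add_mul (v a b : Fin 4 → ℚ) (t : ℚ) :
    ∑ k, v k * (a + t • b) k = (∑ k, v k * a k) + t * ∑ k, v k * b k := by
  simp only [Pi.add_apply, Pi.smul_apply, smul_eq_mul, mul_add, Finset.sum_add_distrib,
    Finset.mul_sum]
  congr 1
  exact Finset.sum_congr rfl fun k _ => by ring

theorem sum_single (v : Fin 4 → ℚ) (k : Fin 4) :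
    ∑ i, v i * (Pi.single k (1 : ℚ) : Fin 4 → ℚ) i = v k := by
  simp [Pi.single_apply]

theorem det : DetStmt := by
  intro Ω _ _ x _ m hs hdet hmem hG hfr
  have hex : ∀ i j, ∃ c : Fin 4 → ℚ, ∑ k, algebraMap ℚ Ω (c k) * x k = m i j := fun i j => by
    obtain ⟨c, hc⟩ := (Submodule.mem_span_range_iff_exists_fun ℚ).mp (hmem i j)
    exact ⟨c, by simpa only [Algebra.smul_def] using hc⟩
  obtain ⟨a, ha⟩ := hex 0 0
  obtain ⟨b, hb⟩ := hex 0 1
  obtain ⟨c, hc⟩ := hex 0 2
  obtain ⟨d, hd⟩ := hex 1 1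
  obtain ⟨e, he⟩ := hex 1 2
  obtain ⟨f, hf⟩ := hex 2 2
  have hb' : m 1 0 = m 0 1 := hs _ _
  have hc' : m 2 0 = m 0 2 := hs _ _
  have he' : m 2 1 = m 1 2 := hs _ _
  by_cases hD : dt (L a) (L b) (L c) (L d) (L e) (L f) = 0
  swap
  · refine ⟨3, _, dt_hom a b c d e f, hD, ?_⟩
    rw [Matrix.det_fin_three] at hdet
    simp only [Matrix.of_apply, hb', hc', he'] at hdet
    simp only [dt, map_sub, map_add, map_mul, map_pow, map_ofNat, L_aeval, ha, hb, hc, hd, he, hf]
    linear_combination hdet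
  exfalso
  have hall : ∀ u : Fin 4 → ℚ, dt (∑ k, a k * u k) (∑ k, b k * u k) (∑ k, c k * u k)
      (∑ k, d k * u k) (∑ k, e k * u k) (∑ k, f k * u k) = 0 := by
    intro u
    have := congrArg (eval u) hD
    simpa only [dt, map_sub, map_add, map_mul, map_pow, map_ofNat, L_eval, map_zero] using this
  have hm00 : m 0 0 ≠ 0 := by
    have := hG (Pi.single 0 1) (by
      intro h
      have := congrFun h 0
      simp at this)
    simpa [Fin.sum_univ_three, Pi.single_apply] using this
  obtain ⟨u, hu⟩ : ∃ u : Fin 4 → ℚ,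
      (∑ k, a k * u k) * (∑ k, d k * u k) - (∑ k, b k * u k) ^ 2 ≠ 0 := by
    by_contra hno
    push Not at hno
    obtain ⟨k0, hk0⟩ : ∃ k, a k ≠ 0 := by
      by_contra h0
      push Not at h0
      exact hm00 (by rw [← ha]; simp [h0])
    set s := b k0 / a k0 with hsdef
    have hk : ∀ k, b k = s * a k ∧ d k = s ^ 2 * a k := by
      intro k
      refine key1 (a k0) (b k0) (d k0) (a k) (b k) (d k) hk0 ?_
      intro t
      have := hno (Pi.single k0 1 + t • Pi.single k 1)
      simpa only [sum_add_mul, sum_single] using this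
    have h01 : m 0 1 = s • m 0 0 := by
      rw [← ha, ← hb, Algebra.smul_def, Finset.mul_sum]
      exact Finset.sum_congr rfl fun k _ => by rw [(hk k).1, map_mul, mul_assoc]
    have h11 : m 1 1 = (s ^ 2) • m 0 0 := by
      rw [← ha, ← hd, Algebra.smul_def, Finset.mul_sum]
      exact Finset.sum_congr rfl fun k _ => by rw [(hk k).2, map_mul, mul_assoc]
    have hle : Submodule.span ℚ {m 0 0, m 0 1, m 1 1} ≤ Submodule.span ℚ {m 0 0} := by
      rw [Submodule.span_le]
      intro y hy
      rcases hy with rfl | rfl | rfl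
      · exact Submodule.mem_span_singleton_self _
      · rw [h01]
        exact Submodule.smul_mem _ _ (Submodule.mem_span_singleton_self _)
      · rw [h11]
        exact Submodule.smul_mem _ _ (Submodule.mem_span_singleton_self _)
    have := Submodule.finrank_mono hle
    have h1 := finrank_span_singleton (K := ℚ) hm00
    omega
  set A := ∑ k, a k * u k
  set B := ∑ k, b k * u k
  set C' := ∑ k, c k * u k
  set D' := ∑ k, d k * u k
  set E' := ∑ k, e k * u k
  set F' := ∑ k, f k * u k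
  have hk : ∀ k, (B * E' - C' * D') ^ 2 * a k + (C' * B - A * E') ^ 2 * d k +
      (A * D' - B ^ 2) ^ 2 * f k + 2 * ((B * E' - C' * D') * (C' * B - A * E')) * b k +
      2 * ((B * E' - C' * D') * (A * D' - B ^ 2)) * c k +
      2 * ((C' * B - A * E') * (A * D' - B ^ 2)) * e k = 0 := by
    intro k
    refine key A B C' D' E' F' (a k) (b k) (c k) (d k) (e k) (f k) ?_
    intro t
    have := hall (u + t • Pi.single k 1)
    simpa only [sum_add_mul, sum_single] using this
  have hfin := hG ![B * E' - C' * D', C' * B - A * E', A * D' - B ^ 2] (by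
    intro h
    have := congrFun h 2
    simp at this
    exact hu this)
  apply hfin
  have hsum : ∑ k, algebraMap ℚ Ω ((B * E' - C' * D') ^ 2 * a k + (C' * B - A * E') ^ 2 * d k +
      (A * D' - B ^ 2) ^ 2 * f k + 2 * ((B * E' - C' * D') * (C' * B - A * E')) * b k +
      2 * ((B * E' - C' * D') * (A * D' - B ^ 2)) * c k +
      2 * ((C' * B - A * E') * (A * D' - B ^ 2)) * e k) * x k = 0 :=
    Finset.sum_eq_zero fun k _ => by rw [hk k, map_zero, zero_mul]
  simp only [map_add, map_mul _ _ (_ : ℚ), add_mul, mul_assoc _ _ (x _), Finset.sum_add_distrib,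
    ← Finset.mul_sum, ha, hb, hc, hd, he, hf] at hsum
  simp only [Fin.sum_univ_three, Matrix.cons_val_zero, Matrix.cons_val_one, Matrix.cons_val,
    hb', hc', he']
  simp only [map_mul, map_sub, map_pow, map_ofNat] at hsum ⊢
  linear_combination hsum

end Pool.Agent.Y734.DET
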